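import Pool.Agent.Lib.AH.Conv

set_option autoImplicit false

namespace Pool.Agent.Results.MP_079cdc_gt.TreeClassification

universe u

/-- A metric space is complete, connected, locally connected, absolutely homogeneous and not
locally compact if and only if it is, after a continuous strictly increasing change `g` of the
distance, a complete real tree (geodesic, four point condition) all of whose points have one finite
valence `k ≥ 3`; `g` is the identity when the space has approximate midpoints. -/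
theorem result (X : Type u) [MetricSpace X] :
    (CompleteSpace X ∧ ConnectedSpace X ∧ LocallyConnectedSpace X ∧
      (∀ (A B : Set X) (f : A ≃ᵢ B), ∃ g : X ≃ᵢ X, ∀ a : A, g (a : X) = (f a : X)) ∧
      ¬ LocallyCompactSpace X) ↔
    ∃ (T : Type u) (_ : MetricSpace T) (e : X ≃ T) (g : ℝ → ℝ) (k : ℕ),
      Nonempty T ∧ CompleteSpace T ∧
      (∀ a b : T, ∃ γ : ℝ → T, γ 0 = a ∧ γ (dist a b) = b ∧
        ∀ s ∈ Set.Icc 0 (dist a b), ∀ t ∈ Set.Icc 0 (dist a b), dist (γ s) (γ t) = |s - t|) ∧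
      (∀ a b c d : T, dist a b + dist c d ≤ max (dist a c + dist b d) (dist a d + dist b c)) ∧
      3 ≤ k ∧ (∀ t : T, Nat.card (ConnectedComponents ({t}ᶜ : Set T)) = k) ∧
      ContinuousOn g (Set.Ici 0) ∧ StrictMonoOn g (Set.Ici 0) ∧
      (∀ x y : X, dist x y = g (dist (e x) (e y))) ∧
      ((∀ x y : X, ∀ ε > 0, ∃ m, dist x m ≤ dist x y / 2 + ε ∧ dist m y ≤ dist x y / 2 + ε) →
        ∀ t, g t = t) := by
  constructor
  · rintro ⟨_, _, _, H, hN⟩
    have H' := Pool.Agent.Lib.AH.ah_of_ext H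
    have := H'.pathConnected
    obtain ⟨T, m, e, g, k, h1, h2, h3⟩ := H'.classify hN
    exact ⟨T, m, e, g, k, e.symm.nonempty, h1,
      fun a b => (h2.seg a b).imp fun _ h => ⟨h.h0, h.h1, h.iso⟩, h2.four, h2.three, h2.val, h3⟩
  · rintro ⟨T, m, e, g, k, _, _, h1, h2, h3, h4, h5, h6, h7, -⟩
    exact Pool.Agent.Lib.AH.RT.converse ⟨fun a b => (h1 a b).elim fun _ h =>
      Pool.Agent.Lib.AH.seg_of_iso h.1 h.2.1 h.2.2, h2, h3, h4⟩ e h5 h6 h7

end Pool.Agent.Results.MP_079cdc_gt.TreeClassification
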